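import Pool.Agent.R627.EndsRegroup

set_option linter.style.haveILetI false

/-!
# MP_3ac48a_al, Q1: the spaces of ends of `Z^{*N}` and of `(Z^2)^{*N}` are homeomorphic

`Ends G` is the prime spectrum of the Boolean ring `PStar G`, the quotient of the Boolean algebra of
the left commensurated subsets of `G` by the ideal of the finite subsets.  The free group on
countably many generators and the free product of countably many copies of `Z^2` have isomorphic
algebras `PStar` and homeomorphic spaces of ends; more generally this holds for the free products of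
any two infinite sequences of nontrivial finitely generated groups.
-/

namespace Pool.Agent.Results.MP_3ac48a_al.EndsHomeo

open Monoid
open Pool.Agent.R627.EndsAlg Pool.Agent.R627.EndsRegroup

universe u v

/-- the general form -/
theorem general (H : ℕ → Type u) (H' : ℕ → Type v) [∀ n, Group (H n)] [∀ n, Group (H' n)]
    [∀ n, Nontrivial (H n)] [∀ n, Nontrivial (H' n)] (hfg : ∀ n, Group.FG (H n))
    (hfg' : ∀ n, Group.FG (H' n)) :
    Nonempty (PStar (CoprodI H) ≃+* PStar (CoprodI H')) ∧
      Nonempty (Ends (CoprodI H) ≃ₜ Ends (CoprodI H')) := by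
  obtain ⟨f, hf⟩ := exists_bij hfg hfg'
  have h1 := nonempty_pstar f hf
  exact ⟨h1, nonempty_ends h1⟩

/-- `Z^2` is finitely generated -/
theorem fg_zz : Group.FG (Multiplicative (ℤ × ℤ)) := by
  haveI : AddGroup.FG (ℤ × ℤ) := inferInstance
  exact inferInstance

theorem free_case : Nonempty (PStar (FreeGroup ℕ) ≃+*
      PStar (CoprodI fun _ : ℕ => Multiplicative (ℤ × ℤ))) ∧
    Nonempty (Ends (FreeGroup ℕ) ≃ₜ Ends (CoprodI fun _ : ℕ => Multiplicative (ℤ × ℤ))) := by
  have h1 := general (fun _ : ℕ => FreeGroup Unit) (fun _ : ℕ => Multiplicative (ℤ × ℤ))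
    (fun _ => inferInstance) (fun _ => fg_zz)
  have h2 : Nonempty (PStar (FreeGroup ℕ) ≃+* PStar (CoprodI fun _ : ℕ => FreeGroup Unit)) :=
    nonempty_pstar (freeGroupEquivCoprodI (ι := ℕ)).toEquiv
      (fun A => isComm_mulEquiv (freeGroupEquivCoprodI (ι := ℕ)) A)
  obtain ⟨a⟩ := h2
  obtain ⟨b⟩ := h1.1
  have h3 : Nonempty (PStar (FreeGroup ℕ) ≃+*
      PStar (CoprodI fun _ : ℕ => Multiplicative (ℤ × ℤ))) := ⟨a.trans b⟩
  exact ⟨h3, nonempty_ends h3⟩

/-- Q1 of MP_3ac48a_al: yes.  The spaces of ends of the free group on countably infinitely many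
generators and of the free product of countably infinitely many copies of `Z^2` are homeomorphic,
the quotient Boolean algebras are isomorphic, and the same holds for the free products of any two
infinite sequences of nontrivial finitely generated groups. -/
theorem result :
    Nonempty (Ends (FreeGroup ℕ) ≃ₜ Ends (CoprodI fun _ : ℕ => Multiplicative (ℤ × ℤ))) ∧
    Nonempty (PStar (FreeGroup ℕ) ≃+* PStar (CoprodI fun _ : ℕ => Multiplicative (ℤ × ℤ))) ∧
    ∀ (H : ℕ → Type u) (H' : ℕ → Type v) [∀ n, Group (H n)] [∀ n, Group (H' n)]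
      [∀ n, Nontrivial (H n)] [∀ n, Nontrivial (H' n)],
      (∀ n, Group.FG (H n)) → (∀ n, Group.FG (H' n)) →
      Nonempty (Ends (CoprodI H) ≃ₜ Ends (CoprodI H')) :=
  ⟨free_case.2, free_case.1, fun H H' _ _ _ _ h h' => (general H H' h h').2⟩

end Pool.Agent.Results.MP_3ac48a_al.EndsHomeo
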